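import Pool.Agent.Q118.SumLin2

/-!
# `K_m^r`-free `r`-graphs defined by sums in vector spaces over `F_p`

Let `V` be a finite vector space over `F_p` (a finite abelian group with `p v = 0` for all `v`) and
`T ⊆ V`.  `sumFamily N r T` is the `r`-graph on `V × {1, …, N}` whose edges are the `r`-sets with
label sum in `T` (the label is the first coordinate); its density tends to `|T| / |V|` as
`N → ∞` (part 4).  Suppose that it is `K_m^r`-free with `m ≤ N`.  If `p` does not divide `r` then
`T` is empty, since the vertices with a suitable constant label span a clique; so let `p` divide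
`r`.

Part 1: `|T| / |V| ≤ 1 - ((p - 1) / (p m))^(r - r/p)`, for every `m ≥ p`.  The exponent
`r - r/p` is smaller than `r - 1` for `r > p`, whereas the usual constructions have density
`1 - ((r-1)/(m-1))^(r-1)`, the conjectured value of `π(K_m^r)` for `r = 3`: constructions from sums
in vector spaces over `F_p`, `p < r`, are worse by a power of `m`.  Part 3: for `r = 4`, `p = 2` the
exponent `r - r/p = 2` is the correct one, `T = V ∖ {0}` gives densities
`1 - O(1/m^2)`.

Proof of part 1: let `C` be the linear code over `F_p` of length `p^j` whose check matrix consists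
of the powers `1, x, x^2, …, x^(r-1)`, `x ∈ F_{p^j}`, where the exponents divisible by `p` are
redundant (a BCH code); every nonzero word of `C` has more than `r` nonzero coordinates.  If the
complement of `T` had density less than `1/(p^(j(r - r/p)) - 1)`, then a random linear image in `V`
of the columns of the check matrix would carry a complete `r`-graph: the `p^j` points, each taken
`p - 1` times.
-/

set_option autoImplicit false

namespace Pool.Agent.Results.MP_a4d830_co.LinearSums

open Finset Pool.Agent.Q118.SumLin Pool.Agent.Q118.SumSys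

universe u

theorem result :
    -- (1) the upper bound for the density
    (∀ (V : Type u) [AddCommGroup V] [Fintype V] [DecidableEq V] (p r : ℕ), p.Prime →
      (∀ v : V, p • v = 0) → p ∣ r → 0 < r → ∀ (N m : ℕ) (T : Finset V), p ≤ m → m ≤ N →
      CliqueFree r m (sumFamily N r T) →
      (T.card : ℝ) ≤ (1 - (((p : ℝ) - 1) / (p * m)) ^ (r - r / p)) * Fintype.card V) ∧
    -- (2) the sharper bound for `m ≤ (p - 1) p ^ j`
    (∀ (V : Type u) [AddCommGroup V] [Fintype V] [DecidableEq V] (p r : ℕ), p.Prime →
      (∀ v : V, p • v = 0) → p ∣ r → 0 < r → ∀ (N m j : ℕ) (T : Finset V), 1 ≤ j →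
      m ≤ (p - 1) * p ^ j → m ≤ N → CliqueFree r m (sumFamily N r T) →
      (T.card : ℝ) ≤ (1 - 1 / ((p : ℝ) ^ (j * (r - r / p)) - 1)) * Fintype.card V) ∧
    -- (3) four-element sets over `F_2`: the order of magnitude
    (∀ m : ℕ, 5 ≤ m → ∃ n : ℕ,
      (∀ N, CliqueFree 4 m (sumFamily N 4 ((univ : Finset (Fin n → ZMod 2)).erase 0))) ∧
      ((univ : Finset (Fin n → ZMod 2)).erase 0).card = 2 ^ n - 1 ∧
      (m - 2) * (m - 3) < 4 * 2 ^ n ∧ 2 * 2 ^ n ≤ (m - 2) * (m - 3)) ∧
    -- (4) the number of edges
    (∀ (V : Type u) [AddCommGroup V] [Fintype V] [DecidableEq V] (N r : ℕ) (T : Finset V),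
      1 ≤ r →
      (N * Fintype.card V).choose (r - 1) * (T.card * N - (r - 1)) ≤
        r * (sumFamily N r T).card ∧
      r * (sumFamily N r T).card ≤
        (N * Fintype.card V).choose (r - 1) * (T.card * N)) := by
  classical
  refine ⟨?_, ?_, ?_, fun V _ _ _ N r T hr => ⟨members N r hr T, members_le N r hr T⟩⟩
  · intro V _ _ _ p r hp hV hpr hr N m T hpm hmN hT
    exact density_le hp hV hpr hr hpm hmN T hT
  · intro V _ _ _ p r hp hV hpr hr N m j T hj hm hmN hT
    have h := density_le_pow hp hV hpr hr hj hm hmN T hT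
    have hTle : T.card ≤ Fintype.card V := card_le_univ T
    have h3 : 1 ≤ p ^ (j * (r - r / p)) := Nat.one_le_pow _ _ hp.pos
    have h2 : ((Fintype.card V : ℕ) : ℝ) ≤
        (((Fintype.card V - T.card) * (p ^ (j * (r - r / p)) - 1) : ℕ) : ℝ) := by
      exact_mod_cast h
    rw [Nat.cast_mul, Nat.cast_sub hTle, Nat.cast_sub h3] at h2
    have hV0 : (0 : ℝ) < Fintype.card V := by exact_mod_cast Fintype.card_pos
    have h4 : (0 : ℝ) ≤ (Fintype.card V : ℝ) - T.card := by
      have : (T.card : ℝ) ≤ Fintype.card V := by exact_mod_cast hTle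
      linarith
    have hd : (0 : ℝ) < (p : ℝ) ^ (j * (r - r / p)) - 1 := by
      by_contra hno
      push Not at hno
      push_cast at h2
      nlinarith
    have h5 : (Fintype.card V : ℝ) / ((p : ℝ) ^ (j * (r - r / p)) - 1) ≤
        (Fintype.card V : ℝ) - T.card := by
      rw [div_le_iff₀ hd]
      push_cast at h2
      exact h2
    have h6 : (1 - 1 / ((p : ℝ) ^ (j * (r - r / p)) - 1)) * Fintype.card V =
        Fintype.card V - (Fintype.card V : ℝ) / ((p : ℝ) ^ (j * (r - r / p)) - 1) := by ring
    rw [h6]
    linarith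
  · intro m hm
    obtain ⟨n, h1, h2, h3⟩ := four_sharp hm
    refine ⟨n, h1, ?_, h2, h3⟩
    rw [card_erase_of_mem (mem_univ _), card_univ, Fintype.card_fun, ZMod.card, Fintype.card_fin]

end Pool.Agent.Results.MP_a4d830_co.LinearSums
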