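import Pool.Agent.Q160.SG.Final
import Pool.Agent.Q129.SG.Closed
import Pool.Agent.Q129.SG.Cups

/-!
# Exact Turán numbers of `K_(2k-1)^k` for k-graphs encoded by a two-colouring of the (k-1)-sets

k-graphs H on a linearly ordered vertex set such that, for some colouring c of the (k-1)-sets with
two colours, c(K without its largest element) and c(K without its smallest element) are different for
every edge K of H, i.e. H is a set of edges of a bipartite subgraph of the shift graph.  All k, all n.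
The lemmas were proved by helpers 31, 65, 96, 129, 195, 275, 285 (modules `Pool.Agent.Q*.SG.*`).
-/

namespace Pool.Agent.Results.MP_a4d830_co.ShiftColourings

open Finset Pool.Agent.Q160.SG

theorem result :
    (∀ (α : Type) [LinearOrder α] (W : Finset α) (k : ℕ), 2 ≤ k →
      ∀ H : Finset (Finset α), TwoColoured k H → (∀ K ∈ H, K ⊆ W) →
        (∀ S : Finset α, S.card = 2 * k - 1 → ¬ S.powersetCard k ⊆ H) ∧
        H.card + (W.card / 2).choose k + ((W.card + 1) / 2).choose k ≤ W.card.choose k) ∧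
    (∀ n k : ℕ, 2 ≤ k → ∃ H : Finset (Finset (Fin n)), TwoColoured k H ∧
        H.card + (n / 2).choose k + ((n + 1) / 2).choose k = n.choose k) ∧
    (∀ (α : Type) [LinearOrder α] (W : Finset α) (k : ℕ), 2 ≤ k →
      ∀ c : Finset α → ℤ, (∀ K, |c K| ≤ 1) →
        2 * (((W.card / 2).choose k : ℕ) : ℤ) + 2 * ((((W.card + 1) / 2).choose k : ℕ) : ℤ)
          - ((W.card.choose k : ℕ) : ℤ) ≤ ∑ K ∈ W.powersetCard k, c (dropMax K) * c (dropMin K)) ∧
    (∀ (n : ℕ) (x y : Fin n → ℝ), (∀ a b c, a < b → b < c → area x y a b c ≠ 0) →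
      (n / 2).choose 4 + ((n + 1) / 2).choose 4 ≤ cupsCaps x y) ∧
    (∀ n : ℕ, ∃ x y : Fin n → ℝ, StrictMono x ∧ (∀ a b c, a < b → b < c → area x y a b c ≠ 0) ∧
      cupsCaps x y = (n / 2).choose 4 + ((n + 1) / 2).choose 4) := by
  have hC : J_CLOSED := Pool.Agent.Q129.SG.t_CLOSED
  have h4 : ∀ (n : ℕ) (c : Finset (Fin n) → Bool),
      (n / 2).choose 4 + ((n + 1) / 2).choose 4 ≤ (mono 4 c univ).card := by
    intro n c
    have h := boundMono hC (Fin n) univ 4 (by norm_num) c
    rwa [Finset.card_univ, Fintype.card_fin] at h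
  refine ⟨?_, sharp, ?_, ?_, ?_⟩
  · intro α _ W k hk H hH hW
    exact ⟨free hC α k hk H hH, turan hC α W k hk H hH hW⟩
  · intro α _ W k hk c hc
    exact boundF hC α W k hk c hc
  · intro n x y hg
    exact Pool.Agent.Q129.SG.part1 (h4 n) x y hg
  · exact (Pool.Agent.Q129.SG.t_CUPS h4).2

end Pool.Agent.Results.MP_a4d830_co.ShiftColourings
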