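import Pool.Agent.Q113.Cov.Unc56

/-!
# Turán's conjecture for `K_5^3` and `K_6^3` for 3-graphs with many pairs of small codegree

The codegree of a pair of vertices of a 3-graph is the number of edges that contain it. Let `H` be a
3-graph on `n` vertices.

* If `H` is `K_5^3`-free, `0 ≤ δ < 2/5`, and at least `n² / (70 (1 - 5δ/2)²)` pairs of vertices have
  codegree at most `δ n`, then `6 |H| ≤ (3/4) n³`.
* If `H` is `K_6^3`-free, `0 ≤ δ < 1/3`, and at least `n² / (48 (1 - 3δ)²)` pairs of vertices have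
  codegree at most `δ n`, then `6 |H| ≤ (21/25) n³`.

So the conjectured bound `1 - 4/(m-1)²` for the density holds, for `m = 5`, if 2.9 percent of the pairs
are in no edge, or if 11.5 percent have codegree at most `n/5`; for `m = 6`, if 4.2 percent
of the pairs are in no edge.

Outline: the certificates of order seven of the library (`Pool.Agent.W843`) are used with the squares
kept for the types on two vertices. If the codegree is small, a linear functional separates the flags
of this type from zero on average. The vertices of small degree are treated by deleting a part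
of them and using the bounds of the library for the rest.
-/

set_option autoImplicit false
open Finset
open scoped Classical

namespace Pool.Agent.Results.MP_a4d830_co.SmallCodegrees

/-- The 3-graph `H` has no `m` vertices spanning all triples: it is `K_m^3`-free. -/
def KFree (m : ℕ) {n : ℕ} (H : Finset (Finset (Fin n))) : Prop :=
  ∀ S : Finset (Fin n), S.card = m → ∃ T ⊆ S, T.card = 3 ∧ T ∉ H

/-- The number of edges of `H` that contain the set `s`. -/
noncomputable def codegree {n : ℕ} (H : Finset (Finset (Fin n))) (s : Finset (Fin n)) : ℕ :=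
  (H.filter fun e => s ⊆ e).card

/-- The pairs of vertices of codegree at most `δ n`. -/
noncomputable def smallPairs {n : ℕ} (H : Finset (Finset (Fin n))) (δ : ℝ) : Finset (Finset (Fin n)) :=
  (univ.powersetCard 2).filter fun s => (codegree H s : ℝ) ≤ δ * n

open Pool.Agent.Q113.Cov Pool.Agent.H122R2.N6 Pool.Agent.Q113.Cov.W56

theorem mem_pair {n : ℕ} {s : Finset (Fin n)} (hs : s.card = 2) {a b : Fin n} (hab : a ≠ b)
    (ha : a ∈ s) (hb : b ∈ s) : ∀ t ∈ s, t = a ∨ t = b := by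
  obtain ⟨x, y, _, rfl⟩ := Finset.card_eq_two.mp hs
  intro t ht
  simp only [mem_insert, mem_singleton] at ha hb ht
  rcases ha with rfl | rfl <;> rcases hb with rfl | rfl
  · exact absurd rfl hab
  · exact ht
  · exact ht.symm
  · exact absurd rfl hab

/-- the relation of small codegree -/
noncomputable def rel {n : ℕ} (H : Finset (Finset (Fin n))) (δ : ℝ) (a b : Fin n) : ℝ :=
  if a ≠ b ∧ ∃ s ∈ smallPairs H δ, a ∈ s ∧ b ∈ s then 1 else 0

theorem rel0 {n : ℕ} (H : Finset (Finset (Fin n))) (δ : ℝ) (a b : Fin n) : 0 ≤ rel H δ a b := by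
  unfold rel; split_ifs <;> norm_num

theorem rel1 {n : ℕ} (H : Finset (Finset (Fin n))) (δ : ℝ) (a b : Fin n) : rel H δ a b ≤ 1 := by
  unfold rel; split_ifs <;> norm_num

theorem rel_symm {n : ℕ} (H : Finset (Finset (Fin n))) (δ : ℝ) (a b : Fin n) : rel H δ b a = rel H δ a b := by
  unfold rel
  have : (b ≠ a ∧ ∃ s ∈ smallPairs H δ, b ∈ s ∧ a ∈ s) ↔ (a ≠ b ∧ ∃ s ∈ smallPairs H δ, a ∈ s ∧ b ∈ s) :=
    ⟨fun ⟨h, s, h1, h2, h3⟩ => ⟨h.symm, s, h1, h3, h2⟩, fun ⟨h, s, h1, h2, h3⟩ => ⟨h.symm, s, h1, h3, h2⟩⟩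
  simp only [this]

theorem rel_codegree {n : ℕ} {H : Finset (Finset (Fin n))} (h3 : ∀ e ∈ H, e.card = 3) (hn0 : (0 : ℝ) < n)
    (δ : ℝ) (a b : Fin n) :
    rel H δ a b * CC (tri H) (fun _ => (1 : ℝ) / n) a b ≤ rel H δ a b * δ := by
  unfold rel
  by_cases h : a ≠ b ∧ ∃ s ∈ smallPairs H δ, a ∈ s ∧ b ∈ s
  · rw [if_pos h, one_mul, one_mul]
    obtain ⟨hab, s, hs, ha, hb⟩ := h
    have h1 : (codegree H s : ℝ) ≤ δ * n := (mem_filter.mp hs).2
    have hcard : s.card = 2 := (mem_powersetCard.mp (mem_filter.mp hs).1).2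
    have h4 : ∑ c, (tri H a b c : ℝ) ≤ codegree H s :=
      sum_tri_le_of h3 fun e he hae hbe => mem_filter.mpr ⟨he, fun t ht => by
        rcases mem_pair hcard hab ha hb t ht with rfl | rfl
        exacts [hae, hbe]⟩
    unfold CC
    rw [← mul_sum, one_div, inv_mul_le_iff₀ hn0]
    linarith
  · rw [if_neg h]; simp

theorem rel_sum {n : ℕ} {H : Finset (Finset (Fin n))} (hn : 0 < n) {δ R κ : ℝ} (hR : 0 < R)
    (h17 : 0 < 1 - κ * δ)
    (hP : (n : ℝ) ^ 2 / (2 * R * (1 - κ * δ) ^ 2) ≤ (smallPairs H δ).card) :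
    1 ≤ R * (1 - κ * δ) ^ 2 * ∑ a : Fin n, ∑ b : Fin n, (1 : ℝ) / n * (1 / n) * rel H δ a b := by
  have hn0 : (0 : ℝ) < n := by exact_mod_cast hn
  have hcard : ∀ s ∈ smallPairs H δ, s.card = 2 := fun s hs => (mem_powersetCard.mp (mem_filter.mp hs).1).2
  have h1 := avg_pairs n hn (smallPairs H δ) hcard
  rw [div_le_iff₀ (by positivity)] at hP
  have h2 : 1 ≤ R * (1 - κ * δ) ^ 2 * (2 * ((smallPairs H δ).card : ℝ) / (n : ℝ) ^ 2) := by
    rw [← mul_div_assoc, le_div_iff₀ (by positivity)]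
    linarith
  have h3 := mul_le_mul_of_nonneg_left h1 (show (0 : ℝ) ≤ R * (1 - κ * δ) ^ 2 by positivity)
  refine h2.trans (h3.trans (le_of_eq ?_))
  unfold rel
  congr!

/-- The conjectured bound `1 - 4/(m-1)²` for `K_m^3`-free 3-graphs in which at least
`n² / (2 R (1 - κ δ)²)` pairs of vertices have codegree at most `δ n`, for
`(m, R, κ) = (5, 35, 5/2)` and `(6, 24, 3)`. -/
theorem result {n m : ℕ} {R κ : ℝ} (hmR : (m = 5 ∧ R = 35 ∧ κ = 5 / 2) ∨ (m = 6 ∧ R = 24 ∧ κ = 3))
    (H : Finset (Finset (Fin n))) (h3 : ∀ e ∈ H, e.card = 3) (hK : KFree m H)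
    (δ : ℝ) (hδ0 : 0 ≤ δ) (hδ1 : κ * δ < 1)
    (hP : (n : ℝ) ^ 2 / (2 * R * (1 - κ * δ) ^ 2) ≤ (smallPairs H δ).card) :
    6 * (H.card : ℝ) ≤ (1 - 4 / ((m : ℝ) - 1) ^ 2) * (n : ℝ) ^ 3 := by
  rcases Nat.eq_zero_or_pos n with rfl | hn
  · have : H = ∅ := by
      rw [eq_empty_iff_forall_notMem]
      intro e he
      have h1 := h3 e he
      have h2 := card_le_univ e
      rw [Fintype.card_fin] at h2
      omega
    rw [this]
    simp
  have hn0 : (0 : ℝ) < n := by exact_mod_cast hn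
  have hw' : (fun _ : Fin n => (1 : ℝ) / n) ∈ stdSimplex ℝ (Fin n) := by
    refine ⟨fun v => by positivity, ?_⟩
    rw [sum_const, card_univ, Fintype.card_fin, nsmul_eq_mul]
    field_simp
  have h17 : 0 < 1 - κ * δ := by linarith
  rcases hmR with ⟨rfl, rfl, rfl⟩ | ⟨rfl, rfl, rfl⟩
  · have hfree : Pool.Agent.H37R3.K5.K53Free H := hK
    have hd := small5 (E := tri H) (tri_sy H) (fun x y => tri_zero h3 (Or.inl rfl))
      (Pool.Agent.H37R3.K5.tri_noK5 h3 hfree) hw' hδ0 hδ1 (rel H δ) (rel0 H δ) (rel1 H δ) (rel_symm H δ)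
      (rel_codegree h3 hn0 δ) (rel_sum hn (by norm_num) h17 hP)
    have h6 := small_codeg_count h3 (3 / 4) n hn hd
    norm_num
    linarith
  · have hfree : Pool.Agent.W843.K6.K63Free H := hK
    have hd := small6 (E := tri H) (tri_sy H) (fun x y => tri_zero h3 (Or.inl rfl))
      (Pool.Agent.W843.K6.tri_noK6 h3 hfree) hw' hδ0 hδ1 (rel H δ) (rel0 H δ) (rel1 H δ) (rel_symm H δ)
      (rel_codegree h3 hn0 δ) (rel_sum hn (by norm_num) h17 hP)
    have h6 := small_codeg_count h3 (21 / 25) n hn hd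
    norm_num
    linarith

end Pool.Agent.Results.MP_a4d830_co.SmallCodegrees
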