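import Pool.Agent.Q118.WinTuran3

/-!
Turán's bounds for `K_m^k`, for all `k` and `m`, for `k`-graphs on ordered vertex sets such that
increasing sequences have few windows in the `k`-graph; in particular if the missing sets are
compressed relative to their first point.
-/

namespace Pool.Agent.Results.MP_a4d830_co.WindowCoverings

open Finset

/-- Every increasing sequence `x 0 < ... < x (l - 1)` of points (of any length `l`) all of whose
windows `{x i, ..., x (i + k - 1)}` have diameter at most `N` has at most `m - k` windows that are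
not in `F`. -/
def Few (n k m N : ℕ) (F : Finset (Finset (Fin n))) : Prop :=
  ∀ (l : ℕ) (x : ℕ → Fin n), (∀ i, i + 1 < l → x i < x (i + 1)) →
    (∀ i, i + k ≤ l → (x (i + k - 1) : ℕ) ≤ x i + N) →
    ((range (l + 1 - k)).filter (fun i => (Ico i (i + k)).image x ∉ F)).card ≤ m - k

/-- If `{x 0 < ... < x (k - 1)}` is in `F` and `y 0 < ... < y (k - 1)`, `y 0 = x 0` and
`y i ≤ x i`, then `{y 0, ..., y (k - 1)}` is in `F`. -/
def FirstShifted (n k : ℕ) (F : Finset (Finset (Fin n))) : Prop :=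
  ∀ x y : ℕ → Fin n, (∀ i, i + 1 < k → x i < x (i + 1)) → (∀ i, i + 1 < k → y i < y (i + 1)) →
    y 0 = x 0 → (∀ i, i < k → y i ≤ x i) → (range k).image x ∈ F → (range k).image y ∈ F

/-- Every set of `m` points contains a member of `F` with `k` points. -/
def Covers (n k m : ℕ) (F : Finset (Finset (Fin n))) : Prop :=
  ∀ K : Finset (Fin n), K.card = m → ∃ B ∈ F, B.card = k ∧ B ⊆ K

/-- `∑ C(n_i, k)` for `n` points divided into `s` classes of sizes `⌊n/s⌋` and `⌊n/s⌋ + 1`. -/
def turan (n s k : ℕ) : ℕ := (s - n % s) * (n / s).choose k + (n % s) * (n / s + 1).choose k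

theorem few_iff {n r m N : ℕ} {F : Finset (Finset (Fin n))} : Few n (r + 1) m N F ↔
    ∀ (l : ℕ) (x : ℕ → Fin n), Pool.Agent.Q118.WinTuran.Chain x l →
      Pool.Agent.Q118.WinTuran.Slow N x l (r + 1) →
      Pool.Agent.Q118.WinTuran.bad F x l (r + 1) ≤ m - (r + 1) := Iff.rfl

theorem slow_of_le {n N : ℕ} (hN : n ≤ N) (x : ℕ → Fin n) (l t : ℕ) :
    Pool.Agent.Q118.WinTuran.Slow N x l t := by
  intro i _
  have := (x (i + t - 1)).2
  omega

theorem shifted_iff {n r : ℕ} {F : Finset (Finset (Fin n))} :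
    FirstShifted n (r + 1) F ↔ Pool.Agent.Q118.WinTuran.FirstShifted F r := by
  have e : ∀ x : ℕ → Fin n, Pool.Agent.Q118.WinTuran.win x 0 (r + 1) = (range (r + 1)).image x := by
    intro x
    unfold Pool.Agent.Q118.WinTuran.win
    rw [zero_add, range_eq_Ico]
  constructor
  · intro h x y hx hy h0 hle hF
    rw [e] at hF ⊢
    exact h x y hx hy h0 (fun i hi => hle i (by omega)) hF
  · intro h x y hx hy h0 hle hF
    rw [← e] at hF ⊢
    exact h x y hx hy h0 (fun i hi => hle i (by omega)) hF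

/-- Points `0, ..., n - 1`.
(1) Let `f` be any function from the sets of `r ≥ 1` points to `{0, ..., L}`. Let `a` be the number
of sets `T` of `r + 1` points and diameter at most `N` with `f (T minus first point) ≤
f (T minus last point)` and `b` the sum of the differences `f (T minus last point) -
f (T minus first point)` over these `T`. Then `a + b ≥ n C(N, r) - (L + r) C(N + 1, r + 1)`.
(2) Under `Few n k m N F`, the number of members of `F` with `k` points and diameter at most `N` is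
at least `n C(N, k - 1) - (m - 1) C(N + 1, k)`.
(3) If `m = s (k - 1) + 1` and `Few n k m ⌊n/s⌋ F`, then `|F| ≥ turan n s k`.
(4) The same for a `k`-graph `H` and its complement.
(5) If `F` is `FirstShifted` and `Covers n k m F` then `Few n k m N F` for all `N`.
(6) For all `n`, `k`, `s` equality holds in (3) for some family with all these properties.
(7) Under `Few n k m n F`, `|F| ≥ (((k - 1) / (m - 1)) ^ (k - 1) - o(1)) C(n, k)` as
`n` tends to infinity. -/
theorem result :
    (∀ n r N L : ℕ, 0 < r → ∀ f : Finset (Fin n) → ℕ,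
      (∀ S : Finset (Fin n), S.card = r → f S ≤ L) →
      n * N.choose r ≤
        ((univ : Finset (Finset (Fin n))).filter (fun T : Finset (Fin n) => T.card = r + 1 ∧
          (∀ a ∈ T, ∀ b ∈ T, (b : ℕ) ≤ (a : ℕ) + N) ∧
          f (T.filter (fun x => ∃ y ∈ T, y < x)) ≤ f (T.filter (fun x => ∃ y ∈ T, x < y)))).card +
        ∑ T ∈ (univ : Finset (Finset (Fin n))).filter (fun T : Finset (Fin n) => T.card = r + 1 ∧
          (∀ a ∈ T, ∀ b ∈ T, (b : ℕ) ≤ (a : ℕ) + N)),
          (f (T.filter (fun x => ∃ y ∈ T, x < y)) - f (T.filter (fun x => ∃ y ∈ T, y < x))) +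
        (L + r) * (N + 1).choose (r + 1)) ∧
    (∀ n k m N : ℕ, 2 ≤ k → k ≤ m → ∀ F : Finset (Finset (Fin n)), Few n k m N F →
      n * N.choose (k - 1) ≤
        (F.filter (fun B : Finset (Fin n) => B.card = k ∧
          ∀ a ∈ B, ∀ b ∈ B, (b : ℕ) ≤ (a : ℕ) + N)).card +
        (m - 1) * (N + 1).choose k) ∧
    (∀ n k s : ℕ, 2 ≤ k → 0 < s → ∀ F : Finset (Finset (Fin n)),
      Few n k (s * (k - 1) + 1) (n / s) F → turan n s k ≤ F.card) ∧
    (∀ n k s : ℕ, 2 ≤ k → 0 < s → ∀ H : Finset (Finset (Fin n)), (∀ B ∈ H, B.card = k) →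
      Few n k (s * (k - 1) + 1) (n / s) (((univ : Finset (Fin n)).powersetCard k) \ H) →
      H.card + turan n s k ≤ n.choose k) ∧
    (∀ n k m N : ℕ, 2 ≤ k → k ≤ m → ∀ F : Finset (Finset (Fin n)),
      FirstShifted n k F → Covers n k m F → Few n k m N F) ∧
    (∀ n k s : ℕ, 2 ≤ k → 0 < s → ∃ F : Finset (Finset (Fin n)), (∀ B ∈ F, B.card = k) ∧
      F.card = turan n s k ∧ FirstShifted n k F ∧ Covers n k (s * (k - 1) + 1) F ∧
      ∀ N, Few n k (s * (k - 1) + 1) N F) ∧
    (∀ k m : ℕ, 2 ≤ k → k ≤ m → ∀ ε : ℝ, 0 < ε → ∃ n₀ : ℕ, ∀ n : ℕ, n₀ ≤ n →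
      ∀ F : Finset (Finset (Fin n)), Few n k m n F →
      ((((k : ℝ) - 1) / ((m : ℝ) - 1)) ^ (k - 1) - ε) * (n.choose k : ℝ) ≤ F.card) := by
  classical
  have p2 : ∀ n k m N : ℕ, 2 ≤ k → k ≤ m → ∀ F : Finset (Finset (Fin n)), Few n k m N F →
      n * N.choose (k - 1) ≤
        (F.filter (fun B : Finset (Fin n) => B.card = k ∧
          ∀ a ∈ B, ∀ b ∈ B, (b : ℕ) ≤ (a : ℕ) + N)).card +
        (m - 1) * (N + 1).choose k := by
    intro n k m N hk hm F hF
    obtain ⟨r, rfl⟩ : ∃ r, k = r + 1 := ⟨k - 1, by omega⟩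
    have h1 := Pool.Agent.Q118.WinTuran.class_bound (N := N) (r := r) (by omega) (few_iff.1 hF)
    have h2 : m - (r + 1) + r = m - 1 := by omega
    rw [h2] at h1
    have h3 : ((Pool.Agent.Q118.WinTuran.shorts n r N).filter (fun T => T ∈ F)).card ≤
        (F.filter (fun B : Finset (Fin n) => B.card = r + 1 ∧
          ∀ a ∈ B, ∀ b ∈ B, (b : ℕ) ≤ (a : ℕ) + N)).card := by
      apply card_le_card
      intro T hT
      rw [mem_filter, Pool.Agent.Q118.WinTuran.mem_shorts] at hT
      rw [mem_filter]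
      exact ⟨hT.2, hT.1⟩
    rw [Nat.add_sub_cancel]
    omega
  have p3 : ∀ n k s : ℕ, 2 ≤ k → 0 < s → ∀ F : Finset (Finset (Fin n)),
      Few n k (s * (k - 1) + 1) (n / s) F → turan n s k ≤ F.card := by
    intro n k s hk hs F hF
    obtain ⟨r, rfl⟩ : ∃ r, k = r + 1 := ⟨k - 1, by omega⟩
    refine Pool.Agent.Q118.WinTuran.class_exact (r := r) (by omega) hs ?_
    intro l x h1 h2
    have h3 := few_iff.1 hF l x h1 h2
    have h4 : s * (r + 1 - 1) + 1 - (r + 1) = (s - 1) * r := by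
      obtain ⟨d, rfl⟩ : ∃ d, s = d + 1 := ⟨s - 1, by omega⟩
      rw [Nat.add_sub_cancel, Nat.add_sub_cancel, add_mul, one_mul]
      omega
    rw [h4] at h3
    exact h3
  refine ⟨?_, p2, p3, ?_, ?_, ?_, ?_⟩
  · intro n r N L hr f hf
    have h1 := Pool.Agent.Q118.WinTuran.main (n := n) r N L hr f hf
    have e1 : Pool.Agent.Q118.WinTuran.shorts n r N =
        (univ : Finset (Finset (Fin n))).filter (fun T : Finset (Fin n) => T.card = r + 1 ∧
          (∀ a ∈ T, ∀ b ∈ T, (b : ℕ) ≤ (a : ℕ) + N)) := by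
      ext T
      rw [Pool.Agent.Q118.WinTuran.mem_shorts, mem_filter]
      exact ⟨fun h => ⟨mem_univ _, h⟩, fun h => h.2⟩
    rw [e1, filter_filter] at h1
    have e2 : ((univ : Finset (Finset (Fin n))).filter (fun T : Finset (Fin n) => T.card = r + 1 ∧
          (∀ a ∈ T, ∀ b ∈ T, (b : ℕ) ≤ (a : ℕ) + N) ∧
          f (T.filter (fun x => ∃ y ∈ T, y < x)) ≤ f (T.filter (fun x => ∃ y ∈ T, x < y)))) =
        (univ : Finset (Finset (Fin n))).filter (fun T : Finset (Fin n) => (T.card = r + 1 ∧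
          (∀ a ∈ T, ∀ b ∈ T, (b : ℕ) ≤ (a : ℕ) + N)) ∧
          f (Pool.Agent.Q118.WinTuran.tai T) ≤ f (Pool.Agent.Q118.WinTuran.ini T)) := by
      apply filter_congr
      intro T _
      exact ⟨fun h => ⟨⟨h.1, h.2.1⟩, h.2.2⟩, fun h => ⟨h.1.1, h.1.2, h.2⟩⟩
    rw [e2]
    exact h1
  · intro n k s hk hs H hHc hF
    have h1 := p3 n k s hk hs _ hF
    have h2 : H ⊆ (univ : Finset (Fin n)).powersetCard k := fun B hB =>
      mem_powersetCard.2 ⟨subset_univ _, hHc B hB⟩
    rw [Finset.card_sdiff_of_subset h2, Finset.card_powersetCard, Finset.card_univ,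
      Fintype.card_fin] at h1
    have h3 := Finset.card_le_card h2
    rw [Finset.card_powersetCard, Finset.card_univ, Fintype.card_fin] at h3
    omega
  · intro n k m N hk hm F hSh hcov
    obtain ⟨r, rfl⟩ : ∃ r, k = r + 1 := ⟨k - 1, by omega⟩
    rw [few_iff]
    intro l x hx _
    exact Pool.Agent.Q118.WinTuran.covering_class (by omega) (shifted_iff.1 hSh) hcov l x hx
  · intro n k s hk hs
    obtain ⟨r, rfl⟩ : ∃ r, k = r + 1 := ⟨k - 1, by omega⟩
    have h4 : s * (r + 1 - 1) + 1 - (r + 1) = (s - 1) * r := by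
      obtain ⟨d, rfl⟩ : ∃ d, s = d + 1 := ⟨s - 1, by omega⟩
      rw [Nat.add_sub_cancel, Nat.add_sub_cancel, add_mul, one_mul]
      omega
    have hkm : r + 1 ≤ s * (r + 1 - 1) + 1 := by
      obtain ⟨d, rfl⟩ : ∃ d, s = d + 1 := ⟨s - 1, by omega⟩
      rw [Nat.add_sub_cancel, add_mul, one_mul]
      omega
    refine ⟨Pool.Agent.Q118.WinTuran.blockT n s (r + 1),
      fun B hB => Pool.Agent.Q118.WinTuran.mem_blockT_card hB,
      Pool.Agent.Q118.WinTuran.card_blockT n s (r + 1) hs (Nat.succ_pos r),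
      shifted_iff.2 (Pool.Agent.Q118.WinTuran.blockT_shifted hs), ?_, ?_⟩
    · intro K hK
      refine Pool.Agent.Q118.WinTuran.class_covering hkm (fun l x hx => ?_) K hK
      rw [h4]
      exact Pool.Agent.Q118.WinTuran.blockT_class hs l x hx
    · intro N
      rw [few_iff]
      intro l x hx _
      rw [h4]
      exact Pool.Agent.Q118.WinTuran.blockT_class hs l x hx
  · intro k m hk hm ε hε
    obtain ⟨r, rfl⟩ : ∃ r, k = r + 1 := ⟨k - 1, by omega⟩
    obtain ⟨q, rfl⟩ : ∃ q, m = q + 1 := ⟨m - 1, by omega⟩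
    obtain ⟨n₀, hn₀⟩ := Pool.Agent.Q118.WinTuran.density (r := r) (q := q) (by omega) (by omega)
      ε hε
    refine ⟨n₀, fun n hn F hF => ?_⟩
    have h1 := hn₀ n hn F (fun l x hx => by
      have := few_iff.1 hF l x hx (slow_of_le le_rfl x l (r + 1))
      have e : q + 1 - (r + 1) = q - r := by omega
      rw [e] at this
      exact this)
    push_cast
    rw [add_sub_cancel_right, add_sub_cancel_right]
    exact h1

end Pool.Agent.Results.MP_a4d830_co.WindowCoverings
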